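import Pool.Agent.Q259.MW.Final

/-!
# An absolute bound for `h_{n+1} / h_n` without block systems of size `n`
-/

set_option autoImplicit false

namespace Pool.Agent.Results.MP_f363fd_co.AbsoluteConstant

open Pool.Agent.Q259.MW

/-- Let `Γ` be a finite vertex-transitive graph and `2 ≤ n < |V|`. If `Aut(Γ)` has no system of
imprimitivity of size `n` on the vertices then `h_{n+1}(Γ) ≤ 6 h_n(Γ)`. -/
theorem result (V : Type) [Fintype V] (Γ : SimpleGraph V) (ht : VertexTransitive Γ) (n : ℕ)
    (hn : 2 ≤ n) (hV : n < Fintype.card V) (hno : ¬ ∃ c : V → Fin n, IsSystem Γ c) :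
    hway Γ (n + 1) ≤ 6 * hway Γ n := by
  by_contra hcon
  push Not at hcon
  obtain ⟨c, hc⟩ := exists_realizer (Γ := Γ) (n := n) (by omega) (by omega)
  exact hno ⟨c, realizers ht (by omega) hcon c hc⟩

end Pool.Agent.Results.MP_f363fd_co.AbsoluteConstant
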